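import Mathlib
import Pool.Agent.H90.CorD

namespace Pool.Agent.Results.MP_4d6ef8_an.NoEmb

open Pool.Agent.H90.Cor InnerProductSpace

theorem result : ∃ (A : Type) (_ : NonUnitalCStarAlgebra A), TopologicalSpace.SeparableSpace A ∧
    NoUnitalQuot A ∧ ¬ IsAF A ∧ IsEmpty (Matrix (Fin 2) (Fin 2) ℂ →+* Corona A) ∧ ¬ UnivAF A := by
  refine ⟨AA, inferInstance, sep, noUnital, notAF, ⟨fun φ => ?_⟩, fun h => ?_⟩
  · refine no_pair' (φ !![0, 1; 0, 0]) (φ !![0, 0; 1, 0]) ?_ ?_
    · rw [← map_mul φ, ← map_zero φ]; congr 1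
      ext i j; fin_cases i <;> fin_cases j <;> simp
    · rw [← map_mul φ, ← map_mul φ, ← map_add φ, ← map_one φ]; congr 1
      ext i j; fin_cases i <;> fin_cases j <;> simp
  · let E := EuclideanSpace ℂ (Fin 2)
    obtain ⟨φ, -⟩ := h.2 (E →L[ℂ] E) ⟨fun _ => ⊤, monotone_const, fun _ =>
      inferInstanceAs (FiniteDimensional ℂ
        (⊤ : NonUnitalStarSubalgebra ℂ (E →L[ℂ] E)).toNonUnitalSubalgebra.toSubmodule), by
      simp [Set.iUnion_const]⟩ inferInstance
    let b := EuclideanSpace.basisFun (Fin 2) ℂ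
    refine no_pair' (φ (rankOne ℂ (b 0) (b 1))) (φ (rankOne ℂ (b 1) (b 0))) ?_ ?_
    · rw [← map_mul φ, ← map_zero φ, ContinuousLinearMap.mul_def, rankOne_comp_rankOne,
        b.orthonormal.inner_eq_zero (by decide), zero_smul]
    · rw [← map_mul φ, ← map_mul φ, ← map_add φ, ← map_one φ, ContinuousLinearMap.mul_def,
        ContinuousLinearMap.mul_def, rankOne_comp_rankOne, rankOne_comp_rankOne,
        inner_self_eq_norm_sq_to_K, inner_self_eq_norm_sq_to_K, b.orthonormal.1, b.orthonormal.1]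
      congr 1
      have := b.sum_rankOne_eq_id
      rw [Fin.sum_univ_two] at this
      simp only [RCLike.ofReal_one, one_pow, one_smul]
      exact this

end Pool.Agent.Results.MP_4d6ef8_an.NoEmb
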